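import Mathlib
import Pool.Agent.Q29.EP.RowsCT
import Pool.Agent.Y1.CT.CodimNum

/-!
# The crystalline Tate conjecture and products with abelian varieties with one half of all slope
types of every CM field of degree `2 r ^ k`

Let `K i` (`i` in a finite set) be CM fields of degree `2 g i` which are pairwise independent: for
`i ≠ k` and all complex embeddings `φ` of `K i` and `ψ` of `K k` some automorphism of `ℂ` is the
identity on `φ (K i)` and the complex conjugation on `ψ (K k)` (this is no condition if there is
only one field).

We fix an isomorphism `ν` of the algebraic closure of `ℚ_p` with `ℂ`; it defines a `p`-adic
valuation of `ℂ`, with the value one at `p`. Let `M i` be a function with integral values on the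
complex embeddings of `K i`, invariant under complex conjugation (the weights). A CM type `Φ i` of
`K i` (a choice of one element out of each complex conjugate pair of embeddings), `M i` and a real
number `κ ≠ 0` prescribe the slopes `(a + κ M) / 2` (at the embeddings in `Φ i`) and `(a - κ M) / 2`
(outside of `Φ i`) of a Weil number for `p ^ a` in `K i`. If `p` splits completely in `K i` then, by
Honda and Tate, all rational slopes between `0` and `a` that are symmetric in this way occur for
abelian varieties over finite fields. The case `M = 1`, `κ = a` is the ordinary case.

**The property of the slope types.** For a family of types `Φ i` the property `Q` is the following.
Let `π i` be Weil numbers for `q = p ^ a` that generate the fields `K i` and have the slope types `Φ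
i`, `M i` (`HasType`), and let `f i` be monic polynomials whose complex roots are conjugates of `π
i` (`IsPolyOf`), for instance the characteristic polynomials of Frobenius of the abelian varieties
in the isogeny classes of the `π i` over the field with `q` elements. Let `A` be an abelian variety
over the field with `Q = q ^ s` elements which is isogenous to a product of powers of abelian
varieties coming from the field with `q` elements, with characteristic polynomials `f i`, and let
`Z` be **any** smooth projective variety over the field with `Q` elements such that

* the eigenvalues `ρ` of Frobenius on the cohomology of `Z` and their conjugates are unrelated to
  the fields `K i` (`AreUnrelated`): a rational function on the complex embeddings of `K i` which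
  changes its sign under complex conjugation and is invariant under all automorphisms of `ℂ` that
  fix a power of `ρ` is zero. This is so if for each complex embedding `ψ` of `K i` there is an
  automorphism of `ℂ` which fixes a power of `ρ` and is the complex conjugation on `ψ (K i)`, for
  instance if the eigenvalues have powers in a number field which contains no CM field that embeds
  into the normal closure of some `K i` (a totally real field, a field linearly disjoint from the
  normal closures of the `K i`).

Then (`TateTimes`) for all `c` **the Tate conjecture holds for `A × Z` in codimension `c` if and
only if it holds for `Z` in the codimensions `c - i` with `0 ≤ i ≤ dim A`**, and the same for the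
Tate conjecture together with the semisimplicity of the eigenvalue `Q ^ c`. This holds for every
Weil cohomology theory with coefficients in an algebraically closed field `F`, in particular for the
crystalline cohomology (with the `K`-linear Frobenius, and coefficients extended to an algebraic
closure of `K`, which does not change the question). So the crystalline Tate conjecture holds for `A
× Z` if it is known for `Z`, for instance for all `Z` of dimension one and for many surfaces.

The framework (`TheoryData`, `IsChow`, `IsWeil`) is the one of the starting files: the Chow groups
`C` with their pull-backs, push-forwards and products, and a Weil cohomology theory `H` with
coefficients in an algebraically closed field, on a class `𝒱` of smooth proper varieties over `k`.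

**The theorem.** Let `E` be **any CM field of degree `2 g = 2 r ^ k`**, `r` a prime number, of
degree at least `16` if `r = 2`. Nothing is assumed about the Galois group of the normal closure of
`E`, and nothing about the subfields of `E`.

* (`HalfOfAll`) For all weights `M` (odd if `r = 2`; if `r` is odd then `r` may divide some, but not
  all of them) the property `Q` is true for **at least one half of all `2 ^ g` types** of `E`.
* (`MostWithWeightsOne`) For the weights `M = 1` (for instance in the ordinary case) it is true for
  at least `(1 - 1 / r) 2 ^ g` of the types.
* (`OneOfTwo`) There is a set `B` of embeddings of `E`, stable under complex conjugation, such that
  for **every** type `Φ` it is true for `Φ` or for the symmetric difference of `Φ` and `B`.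
* (`SixteenPercent`) There is a number `g₀` such that for every CM field that is **abelian over
  `ℚ`**, of any degree `2 g ≥ 2 g₀`, and all odd weights it is true for at least 16 percent of all
  `2 ^ g` types; again nothing is assumed on the subfields.
* (`AlmostAll`, `WeightEstimate`) Moreover, in all degrees: if all values of `M` divide `n` then the
  number of the types of `E` for which it is false is at most `2 ^ g * C * n ^ 2 * rate E g r'`,
  with an absolute constant `C`; here `r'` is any prime factor of `g` (or `r' = 1`), and `rate E g
  r'` is `(1 + log (2 g)) ^ 16` times the smaller of the numbers `W (E) / √g` and `√g / r'`, where
  `W (E) ≤ N ^ 2 * D ^ (1 / 4)`; `N` is the number of the CM subfields of `E` (with `E`) and `D` is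
  the largest degree of a CM subfield of `E` that is normal over `ℚ` with a nonabelian Galois group
  (`D = 1` if there are none). So the property holds for almost all types of all CM fields with a
  bounded number of CM subfields (`O (n ^ 2 * g ^ (-1 / 4) * (log g) ^ 16)` exceptions, relative to
  `2 ^ g`), and of all CM fields whose degree is divisible by a prime number `r' ≥ g ^ (1 / 2 + δ)`.
  The counting of the degenerate types used in this part is the theorem of `AllCMFields`
  (MP_e12fcd_ag, starting files).

All this is proved more generally for finitely many pairwise independent fields `K i`; the
proportions are then multiplied.

**How sharp it is.** For `r = 2` one half is the best possible proportion (of the types without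
relations, see below): if `E` is multiquadratic and `M = 1` then a proportion `1 / 2 - O (g ^ (-1 /
2))` of the types is degenerate (`Pool.Agent.Q29.DP.multiquadratic`; the comments of several
starting files say by mistake that almost all are). The degrees `4` and `8` are exceptions: no CM
type of a biquadratic field, and no CM type of a Galois extension of `ℚ` with the dihedral group of
order eight, is nondegenerate. What was known: bounds for the ranks (Ribet, Dodson, Mai, Yanai); for
odd `r` and `M = 1` the argument modulo `r` (library of the starting files,
`Pool.Agent.H977R3.CM.ncard_exceptional_le`, for abelian varieties of CM type); all types of the
fields of 2-power degree whose discriminant is not a square (starting files; such a field has no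
proper CM subfield); almost all types of the fields with few CM subfields (starting files). Nothing
was known for the fields of 2-power degree with many CM subfields.

**The relations with the eigenvalues of `Z`** (starting files). Suppose that the product of `ρ` and
of some eigenvalues `φ (π i)` of `A`, no two of them complex conjugate, is a power of `q`, up to a
root of unity. For an automorphism `σ` of `ℂ` the `p`-adic valuations of the images under `σ` give a
linear relation between the signed weights `± M i (σ φ)` whose right side is a function of the
valuation of `σ ρ`. It does not change if `σ` is multiplied by an automorphism `τ` which fixes a
power of `ρ`. The difference of the two relations is homogeneous; if there are no homogeneous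
relations then it is trivial, so that the exponents are invariant under all `τ` which fix a power of
`ρ`; as they change their sign under complex conjugation they are zero. Hence only the eigenvalues
`Q ^ j` of `A`, which belong to products of divisor classes, contribute.

**The proof** that there are no homogeneous relations. Such a relation between the signed weights `e
= ± M` of one of the types is: `∑ n φ * e (σ φ) = 0` for all automorphisms `σ` of `ℂ`, with `n φ̄ =
- n φ`, `n ≠ 0`. Let `P` be a Sylow `r`-subgroup of the Galois group of the normal closure and `R`
the lattice of these relations for all `σ` in `P`. If `R ≠ 0` then it contains an element `n`, not
in `r R`, which is fixed modulo `r R` by `P`. If `r` is odd then `P` has two orbits on the set `Y`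
of the embeddings, which are complex conjugate, and `n` is constant modulo `r` on an orbit `O`; so
the sum of `e` over `O` is divisible by `r`, and it is not after a change of the type at one place.
For `M = 1` this happens for less than `2 ^ g / r` of the types, by the reflection principle for
walks on the cycle of length `2 r`.

Let `r = 2`. Then `P` is transitive on `Y`. Let `S` be the lattice of the antisymmetric functions
orthogonal to `R`. Modulo two they give groups `R'` and `S'` of functions on the set of places,
which are orthogonal to each other. Let `φ` and `ψ` be the second binary digits of `e` and of an
element `n` of `R` with odd values. Then `φ (σ y) + φ y` is in `S'` and `ψ (σ y) + ψ y` is in `R'`,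
for all `σ` in `P`. If `R'` contains only constants then `ψ` is semi-invariant (it changes by a
constant under all `σ`), and as the number of places is divisible by four one finds that the sum of
`φ + ψ` is zero; so the change of `e` at one place removes all relations. If `R'` is not constant
then it contains a nonconstant semi-invariant function `h`, `h (σ y) + h y = b σ`, orthogonal to all
functions `φ (σ y) + φ y`. If there is also an antisymmetric semi-invariant function then again the
change at one place suffices. If the change at one place does not suffice then one finds a second
function `h'`, `h' (σ y) + h' y = b' σ`, such that the scalar products of `φ (σ y) + φ y` with `h`,
`h'` and `1` are `0`, `b' σ` and `0`. The functions `h`, `h'` divide the places into four blocks of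
equal size (divisible by two). The main step is to show that then `e` and its change `e'` on the
block where `h = 0`, `h' = 1` do not both have relations; the configuration persists for every other
`e`, up to exchanging `h` and `h'`. It uses a key identity: if `u` in `R'` and `v` in `S'` are fixed
by `σ` then the sum of `u v (φ (σ y) + φ y)` is zero. It implies that `h + h'` is neither in `R'`
nor in the analogue of `S'` for `e'`. A duality argument for the 2-group that preserves `h + h'`
shows that the functions `∑ c σ * ψ (σ y)`, with `∑ c σ = 0` and `c` supported on this group, have
arbitrary values on the set where `h + h' = 0`. Hence `R'` is a graph over the functions on this
set; this gives `h` in `R'`, and `h'` not in `S'`. In the same way, for `e'` and an element `s` with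
`b s = 0`, `b' s = 1` there is such a `c` for which `∑ c σ * φ' (σ y)` is `φ' (s y) + φ' y` on all
of `Y`. The same combination for `e` differs from `φ (s y) + φ y` by `h'` or `h' + 1`, so that `h'`
is in `S'`, a contradiction.

For abelian fields: by Fourier analysis a type has relations if and only if the sum of `e` over the
Galois group `G`, multiplied by some odd character `χ`, is zero. If there is an odd quadratic
character `χ₀` and `8` divides the order of `G` then the sums for all odd characters of 2-power
order are `2` modulo `2 P`, for a prime ideal `P` over two, as soon as the sum for `χ₀` is `2`
modulo `4`; this is so for one half of all types. For a character of order six the sum is zero for a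
proportion of at most `3 √2 / (2 π g)` of all types with this parity, by the theorem of Erdős on the
problem of Littlewood and Offord and an involution on pairs of subsets, and there are at most `g /
2` pairs of conjugate characters of order six: together less than `0.3377`. For a character of order
`n` with `φ(n) ≥ 4` the proportion is at most `ρ ^ φ(n)`, `ρ` the largest probability of a sum of `2
g / n` signs, and the sum over all these characters tends to zero. If there is no odd quadratic
character then there are no odd characters of order six, and for those of order four the proportions
are at most `4 / (π g)`. The lemmas on abelian groups were proved by helper129, helper154,
helper177, helper178, helper208 and helper261 of this team.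
-/

set_option autoImplicit false

namespace Pool.Agent.Results.MP_60ec62_ag.HalfOfAllTimes

open NumberField Module Pool.Agent.H204R3.CM Pool.Agent.H977R3.CM Pool.Agent.Y1.KN
  Pool.Agent.Y1.CT Pool.Agent.Q29.EP

open Pool.Agent.Q29.DP (of_unrelated)

/-- The property of the slope types `Φ i` with the weights `M i`. -/
def Q : TypeProperty := fun _ _ ν _ _ K _ _ _ M Φ => ForAllTypes ν K M (TateTimes K) Φ

/-- **The crystalline Tate conjecture for `A × Z` in codimension `c` is equivalent to the one for
`Z` in the codimensions between `c - dim A` and `c`, for the abelian varieties `A` with one half of
all slope types of every CM field of degree `2 r ^ k`, and all `Z` whose eigenvalues are
unrelated.** -/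
theorem result : HalfOfAll Q ∧ MostWithWeightsOne Q ∧ OneOfTwo Q ∧ SixteenPercent Q ∧
    AlmostAll Q ∧ WeightEstimate := by
  have h : WithoutRelations Q := of_unrelated (P := fun _ K _ => TateTimes K)
    fun _ _ _ _ _ _ hQ hR => tateTimes hQ hR
  exact ⟨halfOfAll h, mostWithWeightsOne h, oneOfTwo h, sixteenPercent h,
    almostAll h, weight_estimate_holds⟩

end Pool.Agent.Results.MP_60ec62_ag.HalfOfAllTimes
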