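import Mathlib
import Pool.Agent.Q60.D3T.HR
import Pool.Agent.Q60.D3H.FineG

/-!
# The crystalline Tate conjecture for ordinary abelian varieties with factors of prime dimension or of
generic type

Let `A₀` be an ordinary abelian variety over the field with `p ^ a` elements, isogenous to a product of
abelian varieties `A₀ i` with complex multiplication by CM fields `E i`, `[E i : ℚ] = 2 dim (A₀ i)`,
containing the Frobenius endomorphisms (for a simple ordinary abelian variety `E i` is generated by the
Frobenius endomorphism). The embeddings of `E i` for which the Frobenius endomorphism has slope one form a
CM type, the CM type of the canonical lift. Suppose that each `E i`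

* has degree at most six, or
* has degree twice a prime number, or
* the CM type is nondegenerate and the maximal real subfield `F i` of `E i` has no subfields except `ℚ`
  and itself, or
* the CM type is separated: for two embeddings `φ`, `ψ` of `E i` which are different on `F i` there is an
  automorphism of `ℂ` which is the identity on all conjugates of `F i` and on `φ (E i)`, but not on
  `ψ (E i)` (for `E i = F i (√-α)`: the product of two different conjugates of `α` is not a square in the
  Galois closure of `F i`; this holds if the Galois group of `E i` is as large as possible).

Suppose that two factors have isomorphic CM types if their CM fields have the same Galois closure and one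
of them has degree larger than six, and the corresponding condition for any three factors whose CM
fields have degree four or six. If `E i` has degree larger than six, its CM type is not separated and
`K ⊂ E i` is an imaginary quadratic field, the larger one of the numbers of embeddings of `E i` of slope
one with a given restriction to `K` is in the set `𝒟`, which contains `2`. Let `X` be the canonical lift
of `A₀`. The *generated* classes are the rational classes on `X` which are obtained from the classes of
divisors and Weil classes of imaginary quadratic fields `K` on abelian varieties of the dimensions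
`2 m`, `m ∈ 𝒟`, containing an elliptic curve with multiplication by `K` stable under `K`, by linear
combinations, cup products, pull-backs and push-forwards. For `𝒟 = {2, 3}` they are algebraic by
theorems of Markman, and so are their reductions on `A₀`.

Let `K₀` be the fraction field of the ring of Witt vectors of the field with `Q = p ^ (a s)` elements, let
`V₀` be the dual space of the first crystalline cohomology group of `A₀` with coefficients in `K₀`,
with its linear Frobenius endomorphism `F`, and let `K` be an extension of `K₀`, for instance the field of
complex numbers, isomorphic to an algebraic closure of the field of `p`-adic numbers. By the comparison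
theorem of Berthelot and Ogus and the comparison of de Rham and singular cohomology, `K ⊗ V₀` is
identified with `K ⊗ H_1(X, ℚ)`, and `F` is the multiplication by `π`.

Let `A` be a subspace of `H^{2m}(A₀, K₀)` such that each generated class of degree `2 m` on `X` which is
multiplied by `Q ^ m` by the Frobenius endomorphism agrees with a class in `A`; for `𝒟 = {2, 3}` the
space spanned by the classes of the algebraic cycles of codimension `m` on `A₀`, over the field with `Q`
elements, has this property. Then each class in the crystalline cohomology group `H^{2m}(A₀, K₀)` which
is multiplied by `Q ^ m` by the linear Frobenius endomorphism belongs to `A`. So for `𝒟 = {2, 3}` the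
crystalline Tate conjecture holds for `A₀` and its powers.
-/

namespace Pool.Agent.Results.MP_60ec62_ag.OrdinaryPrimeDimension

open Pool.Agent.H204R3.CM Pool.Agent.W547.KB Pool.Agent.W530.NF
open Pool.Agent.W547.LN (IsCanonicalLift IsFrobeniusMap)
open Pool.Agent.W547.DP (IsTateForm)
open Pool.Agent.Q60.D3H (GenT)
open Pool.Agent.Q60.D3T (ContainsRing)
open scoped TensorProduct

/-- Crystalline Tate classes on ordinary abelian varieties over finite fields. -/
theorem result (𝒟 : Set ℕ) (hD : 2 ∈ 𝒟) (p : ℕ) [Fact p.Prime] (a : ℕ) (ha : 0 < a)
    (ν : PadicAlgCl p ≃+* ℂ) (X : CMAV) (hX : GenT 𝒟 X) (π : X.H1)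
    (hπ : IsCanonicalLift p a ν X π)
    {K₀ K V₀ : Type} [Field K₀] [CharZero K₀] [Field K] [Algebra K₀ K] [AddCommGroup V₀]
    [Module K₀ V₀] [FiniteDimensional K₀ V₀] (C : Comparison X K (K ⊗[K₀] V₀))
    (F : V₀ →ₗ[K₀] V₀) (hF : IsFrobeniusMap C π (F.baseChange K)) (s : ℕ) (hs : 0 < s) {m : ℕ}
    (A : Submodule K₀ (V₀ [⋀^Fin (2 * m)]→ₗ[K₀] K₀))
    (hA : ContainsRing 𝒟 C (π ^ s) ((p ^ a) ^ s) A) (f : V₀ [⋀^Fin (2 * m)]→ₗ[K₀] K₀)
    (hf : IsTateForm (F ^ s) ((p ^ a) ^ s) f) : f ∈ A :=
  Pool.Agent.Q60.D3T.crystalline_of_ring p a ha ν X
    (fun f hf => Pool.Agent.Q60.D3H.cmG hD X hX f hf) π hπ C F hF s hs A hA f hf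

end Pool.Agent.Results.MP_60ec62_ag.OrdinaryPrimeDimension
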