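import Mathlib
import Pool.Agent.Q43.HQ.Times
import Pool.Agent.Y1.CT.CodimNum

/-!
# The crystalline Tate conjecture and products with abelian varieties which are separated by the Galois
closures of their CM fields

Let `K i` be finitely many CM fields with Weil numbers `π i` for `q = p ^ a` (any Newton polygons). We
assume (`IsSeparated`)

* (`generated`) the powers of `π i` generate `K i`;
* (`typed`) the degree of `K i` is two, or it is four and `K i` contains no imaginary quadratic field,
  or it is twice an odd prime number, or it is larger than four and there is an odd function `s` on
  the set of complex embeddings of `K i`, on which the automorphisms of `ℂ` act by signs (possibly
  `s = 0`), such that the odd functions orthogonal to `s` are an irreducible representation over `ℚ`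
  of the group of automorphisms of `ℂ` (for instance if the Galois group of `K i` is large, or if `K i`
  is cyclic of 2-power degree);
* (`closure`) the Galois closures of `K i` and `K k`, `i ≠ k`, are different if both fields have degree
  at least four;
* (`quadratic`) no imaginary quadratic field is contained in two of the fields `K i`, and the norm of
  `π i` to an imaginary quadratic subfield of `K i` is not a power of the square root of `q`, up to a
  root of unity.

Let `f i` be monic polynomials whose complex roots are conjugates of `π i` (`IsPolyOf`), for instance
the characteristic polynomials of Frobenius of the abelian varieties in the isogeny classes of the
`π i` over the field with `q` elements (Honda, Tate). Let `A` be an abelian variety over the field with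
`Q = q ^ s` elements which is isogenous to a product of powers of abelian varieties coming from the
field with `q` elements, with characteristic polynomials `f i`, and let `Z` be **any** smooth projective
variety over the field with `Q` elements such that

* the eigenvalues `ρ` of Frobenius on the cohomology of `Z` and their conjugates are unrelated to
  the fields `K i` (`AreUnrelated`): a rational function on the complex embeddings of `K i` which
  changes its sign under complex conjugation and is invariant under all automorphisms of `ℂ` that
  fix a power of `ρ` is zero. This is so if for each complex embedding `ψ` of `K i` there is an
  automorphism of `ℂ` which fixes a power of `ρ` and is the complex conjugation on `ψ (K i)`, for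
  instance if the eigenvalues have powers in a number field which contains no CM field that embeds
  into the normal closure of some `K i` (a totally real field, a field linearly disjoint from the
  normal closures of the `K i`).

**The theorem** (`TateTimes`). For all `c` the Tate conjecture holds for `A × Z` in codimension `c` if
and only if it holds for `Z` in the codimensions `c - i` with `0 ≤ i ≤ dim A`, and the same for the
Tate conjecture together with the semisimplicity of the eigenvalue `Q ^ c`. This holds for every
Weil cohomology theory with coefficients in an algebraically closed field `F`, in particular for the
crystalline cohomology (with the `K`-linear Frobenius, and coefficients extended to an algebraic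
closure of `K`, which does not change the question). So the crystalline Tate conjecture holds for `A`,
and for `A × Z` if it is known for `Z`, for instance for all `Z` of dimension one and for many surfaces.

For example, `A` can be any product of powers of absolutely simple varieties of different odd prime
dimensions, of any Newton polygons, whose CM fields contain no imaginary quadratic fields, and of
ordinary elliptic curves with different CM fields.

The framework (`TheoryData`, `IsChow`, `IsWeil`) is the one of the starting files: the Chow groups
`C` with their pull-backs, push-forwards and products, and a Weil cohomology theory `H` with
coefficients in an algebraically closed field, on a class `𝒱` of smooth proper varieties over `k`. The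
passage from the angle rank to `A × Z` is the one of the starting files.

**The main point** is that the only multiplicative relations between the conjugates of the `π i` and `q`
are the trivial ones `π * conj π = q`, up to roots of unity: the angle rank is maximal
(`Pool.Agent.Q43.HQ.maximalAngleRank`). Let `L` be the Galois closure of all `K i`, `c` the complex
conjugation, and let `T i` be the equivariant map from the embeddings `φ` of `K i` to the
representation `ℚ ⊗ L^×` of the Galois group which takes `φ` to the class of `φ(π i)^2 / q`. A relation
is `∑ v i φ T i φ = 0` with odd functions `v i`. If the Galois group does not act on `v i` by signs then
for each element `κ` of the Galois group which acts nontrivially on `K i` there is a translate `v'` of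
`v i` such that it does not act by signs on `v' - v' ∘ κ`. So all `k` for which `K i` is not in the
Galois closure of `K k` are removed from the relation one after another; those whose Galois closure is
strictly larger are removed by averaging. There remains a relation to which the other fields contribute
elements on which the group acts by signs; the commutators and the elements of odd order fix them, and
one finds that the Galois group acts on all `φ(π i)^2 / q` by signs, so that the degree of `K i` is two.
Hence `v i = 0`, or `v i` comes from an imaginary quadratic subfield of `K i`, and then the norm of
`π i` to this field satisfies a relation.
-/

set_option autoImplicit false

namespace Pool.Agent.Results.MP_60ec62_ag.SeparatedTimes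

open NumberField Module Polynomial Pool.Agent.Y1.KN Pool.Agent.Y1.CT Pool.Agent.Q43.HQ

/-- **The crystalline Tate conjecture for `A × Z` in codimension `c` is equivalent to the one for
`Z` in the codimensions between `c - dim A` and `c`, for the abelian varieties `A` whose Weil numbers
are separated by the Galois closures of their fields, and all `Z` whose eigenvalues are unrelated.** -/
theorem result (p : ℕ) [Fact p.Prime] (a : ℕ) (ha : 0 < a) (I : Type) [Fintype I] (K : I → Type)
    [∀ i, Field (K i)] [∀ i, NumberField (K i)] [∀ i, IsCMField (K i)] (π : ∀ i, K i)
    (hw : ∀ i, π i * IsCMField.complexConj (K i) (π i) = (p : K i) ^ a)
    (hs : IsSeparated (p ^ a) K π) (f : I → ℤ[X]) (hf : ∀ i, IsPolyOf (π i) (f i)) :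
    TateTimes K (p ^ a) f :=
  tateTimes (Nat.one_lt_pow ha.ne' (Fact.out : p.Prime).one_lt) (noRel_unrelated ha hw hs hf)

end Pool.Agent.Results.MP_60ec62_ag.SeparatedTimes
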